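import Pool.Agent.R318.SU.Bad

/-! # Random polynomials in several variables over a finite field: the values at few points are independent -/

set_option autoImplicit false
set_option linter.unusedSectionVars false

namespace Pool.Agent.R318.DP

open Finset Pool.Agent.R318.ST Pool.Agent.R318.SU

variable {K : Type} [Field K] [Fintype K] [DecidableEq K]

/-- the value at `t` of the polynomial with the exponents `e` and the coefficients `u` -/
def pol {m d : ℕ} (e : Fin d → Fin m → ℕ) (u : Fin d → K) (t : Fin m → K) : K := ∑ j, u j * ∏ i, t i ^ e j i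

lemma pol_add {m d : ℕ} (e : Fin d → Fin m → ℕ) (u w : Fin d → K) (y : K) (t : Fin m → K) :
    pol e (fun j => u j + y * w j) t = pol e u t + y * pol e w t := by
  unfold pol
  rw [mul_sum, ← sum_add_distrib]
  apply sum_congr rfl
  intro j _
  ring

/-- the span of the monomials of degree at most `r` -/
def Vr (K : Type) [Field K] (m r : ℕ) : Submodule K ((Fin m → K) → K) :=
  Submodule.span K {g | ∃ s : Fin m → ℕ, ∑ i, s i ≤ r ∧ g = fun t => ∏ i, t i ^ s i}

lemma Vr_mul {m r : ℕ} (i : Fin m) (c : K) (g : (Fin m → K) → K) (hg : g ∈ Vr K m r) :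
    (fun t => (t i - c) * g t) ∈ Vr K m (r + 1) := by
  unfold Vr at hg
  induction hg using Submodule.span_induction with
  | mem x hx =>
    obtain ⟨s, hs, rfl⟩ := hx
    have e1 : (fun t : Fin m → K => (t i - c) * ∏ k, t k ^ s k) =
        (fun t => ∏ k, t k ^ (s + (Pi.single i 1 : Fin m → ℕ)) k) - c • (fun t => ∏ k, t k ^ s k) := by
      funext t
      simp only [Pi.sub_apply, Pi.smul_apply, smul_eq_mul, Pi.add_apply, pow_add, prod_mul_distrib]
      have : ∏ k, t k ^ (Pi.single i 1 : Fin m → ℕ) k = t i := by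
        rw [prod_eq_single i]
        · simp
        · intro k _ hk
          rw [Pi.single_eq_of_ne hk, pow_zero]
        · intro h
          exact absurd (mem_univ i) h
      rw [this]
      ring
    rw [e1]
    apply Submodule.sub_mem
    · apply Submodule.subset_span
      refine ⟨s + (Pi.single i 1 : Fin m → ℕ), ?_, rfl⟩
      simp only [Pi.add_apply, sum_add_distrib]
      have : ∑ k, (Pi.single i 1 : Fin m → ℕ) k = 1 := by
        rw [sum_eq_single i]
        · simp
        · intro k _ hk
          rw [Pi.single_eq_of_ne hk]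
        · intro h
          exact absurd (mem_univ i) h
      omega
    · apply Submodule.smul_mem
      apply Submodule.subset_span
      exact ⟨s, by omega, rfl⟩
  | zero =>
    have : (fun t : Fin m → K => (t i - c) * (0 : (Fin m → K) → K) t) = 0 := by
      funext t
      simp
    rw [this]
    exact Submodule.zero_mem _
  | add x y _ _ hx hy =>
    have : (fun t : Fin m → K => (t i - c) * (x + y) t) = (fun t => (t i - c) * x t) + fun t => (t i - c) * y t := by
      funext t
      simp only [Pi.add_apply]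
      ring
    rw [this]
    exact Submodule.add_mem _ hx hy
  | smul a x _ hx =>
    have : (fun t : Fin m → K => (t i - c) * (a • x) t) = a • (fun t => (t i - c) * x t) := by
      funext t
      simp only [Pi.smul_apply, smul_eq_mul]
      ring
    rw [this]
    exact Submodule.smul_mem _ _ hx

lemma Vr_mono {m r r' : ℕ} (h : r ≤ r') : Vr K m r ≤ Vr K m r' := by
  apply Submodule.span_mono
  rintro g ⟨s, hs, hg⟩
  exact ⟨s, hs.trans h, hg⟩

lemma Vr_rep {m d n : ℕ} (e : Fin d → Fin m → ℕ) (he : ∀ s : Fin m → ℕ, ∑ i, s i ≤ n → ∃ j, e j = s)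
    (g : (Fin m → K) → K) (hg : g ∈ Vr K m n) : ∃ w : Fin d → K, ∀ t, pol e w t = g t := by
  unfold Vr at hg
  induction hg using Submodule.span_induction with
  | mem x hx =>
    obtain ⟨s, hs, rfl⟩ := hx
    obtain ⟨j, hj⟩ := he s hs
    refine ⟨Pi.single j 1, fun t => ?_⟩
    unfold pol
    rw [sum_eq_single j]
    · rw [Pi.single_eq_same, one_mul, hj]
    · intro k _ hk
      rw [Pi.single_eq_of_ne hk, zero_mul]
    · intro h
      exact absurd (mem_univ j) h
  | zero => exact ⟨0, fun t => by unfold pol; simp⟩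
  | add x y _ _ hx hy =>
    obtain ⟨w, hw⟩ := hx
    obtain ⟨w', hw'⟩ := hy
    refine ⟨fun j => w j + 1 * w' j, fun t => ?_⟩
    rw [pol_add, hw, hw', one_mul]
    rfl
  | smul a x _ hx =>
    obtain ⟨w, hw⟩ := hx
    refine ⟨fun j => 0 + a * w j, fun t => ?_⟩
    have h0 := pol_add e (0 : Fin d → K) w a t
    have h1 : pol e (0 : Fin d → K) t = 0 := by unfold pol; simp
    simp only [Pi.zero_apply] at h0
    rw [h0, h1, hw, zero_add]
    rfl

/-- interpolation -/
lemma dirV {m : ℕ} (t : Fin m → K) (S : Finset (Fin m → K)) (ht : t ∉ S) :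
    ∃ g ∈ Vr K m S.card, g t = 1 ∧ ∀ s ∈ S, g s = 0 := by
  induction S using Finset.induction_on with
  | empty =>
    refine ⟨fun t => ∏ i, t i ^ (0 : Fin m → ℕ) i, Submodule.subset_span ⟨0, by simp, rfl⟩, by simp, by simp⟩
  | insert a S ha ih =>
    rw [mem_insert, not_or] at ht
    obtain ⟨g, hg, hg1, hg0⟩ := ih ht.2
    obtain ⟨i, hi⟩ : ∃ i, t i ≠ a i := Function.ne_iff.1 ht.1
    refine ⟨(t i - a i)⁻¹ • (fun x => (x i - a i) * g x), ?_, ?_, ?_⟩
    · rw [card_insert_of_notMem ha]
      exact Submodule.smul_mem _ _ (Vr_mul i (a i) g hg)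
    · simp only [Pi.smul_apply, smul_eq_mul, hg1, mul_one]
      exact inv_mul_cancel₀ (sub_ne_zero.2 hi)
    · intro s hs
      simp only [Pi.smul_apply, smul_eq_mul]
      rw [mem_insert] at hs
      rcases hs with rfl | hs
      · simp
      · rw [hg0 s hs]
        simp

lemma dirP {m d n : ℕ} (e : Fin d → Fin m → ℕ) (he : ∀ s : Fin m → ℕ, ∑ i, s i ≤ n → ∃ j, e j = s)
    (t : Fin m → K) (S : Finset (Fin m → K)) (ht : t ∉ S) (hS : S.card ≤ n) :
    ∃ w : Fin d → K, pol e w t = 1 ∧ ∀ s ∈ S, pol e w s = 0 := by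
  obtain ⟨g, hg, h1, h0⟩ := dirV t S ht
  obtain ⟨w, hw⟩ := Vr_rep e he g (Vr_mono hS hg)
  exact ⟨w, by rw [hw, h1], fun s hs => by rw [hw, h0 s hs]⟩

lemma shiftP {m d : ℕ} (e : Fin d → Fin m → ℕ) (F : K → ℝ) (H : (Fin d → K) → ℝ) (w : Fin d → K) (t : Fin m → K)
    (hw : pol e w t = 1) (hH : ∀ u y, H (fun j => u j + y * w j) = H u) :
    (Fintype.card K : ℝ) * ∑ u : Fin d → K, F (pol e u t) * H u = (∑ y, F y) * ∑ u, H u := by
  have h1 : ∀ y : K, ∑ u : Fin d → K, F (pol e u t) * H u = ∑ u : Fin d → K, F (pol e u t + y) * H u := by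
    intro y
    rw [← Equiv.sum_comp (Equiv.addRight (fun j => y * w j)) (fun u : Fin d → K => F (pol e u t) * H u)]
    apply sum_congr rfl
    intro u _
    have e1 : (Equiv.addRight (fun j => y * w j)) u = fun j => u j + y * w j := by
      funext j
      rfl
    rw [e1, pol_add, hw, mul_one, hH]
  calc (Fintype.card K : ℝ) * ∑ u : Fin d → K, F (pol e u t) * H u =
      ∑ _y : K, ∑ u : Fin d → K, F (pol e u t) * H u := by rw [sum_const, card_univ, nsmul_eq_mul]
    _ = ∑ y : K, ∑ u : Fin d → K, F (pol e u t + y) * H u := sum_congr rfl fun y _ => h1 y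
    _ = ∑ u : Fin d → K, (∑ y : K, F (pol e u t + y)) * H u := by
        rw [sum_comm]
        apply sum_congr rfl
        intro u _
        rw [sum_mul]
    _ = ∑ u : Fin d → K, (∑ y : K, F y) * H u := by
        apply sum_congr rfl
        intro u _
        rw [← Equiv.sum_comp (Equiv.addLeft (pol e u t)) F]
        rfl
    _ = _ := by rw [mul_sum]

/-- the values of a random polynomial with all the monomials of degree at most `n` are independent, `n + 1` by `n + 1` -/
theorem kwiseP {m d n : ℕ} (e : Fin d → Fin m → ℕ) (he : ∀ s : Fin m → ℕ, ∑ i, s i ≤ n → ∃ j, e j = s) (ψ : K → ℝ) :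
    KWise (fun (t : Fin m → K) (u : Fin d → K) => ψ (pol e u t)) (n + 1) (fun j => (∑ y, ψ y ^ j) / Fintype.card K) := by
  classical
  intro T t ht j r hr
  have hq : (Fintype.card K : ℝ) ≠ 0 := by exact_mod_cast Fintype.card_ne_zero
  have hexp : ∀ u : Fin d → K, (∑ s ∈ T, ψ (pol e u s)) ^ r =
      ∑ σ ∈ Fintype.piFinset (fun _ : Fin r => T), ∏ i, ψ (pol e u (σ i)) := by
    intro u
    rw [← Finset.prod_univ_sum (fun _ : Fin r => T) (fun _ s => ψ (pol e u s)), prod_const, card_univ,
      Fintype.card_fin]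
  have key : ∀ σ ∈ Fintype.piFinset (fun _ : Fin r => T),
      (Fintype.card K : ℝ) * ∑ u : Fin d → K, ψ (pol e u t) ^ j * ∏ i, ψ (pol e u (σ i)) =
        (∑ y, ψ y ^ j) * ∑ u : Fin d → K, ∏ i, ψ (pol e u (σ i)) := by
    intro σ hσ
    rw [Fintype.mem_piFinset] at hσ
    obtain ⟨w, he1, he2⟩ := dirP e he t (univ.image σ) (by
      intro h
      rw [mem_image] at h
      obtain ⟨i, _, hi⟩ := h
      exact ht (hi ▸ hσ i)) (by
      have : (univ.image σ).card ≤ r := by
        refine card_image_le.trans ?_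
        rw [card_univ, Fintype.card_fin]
      omega)
    apply shiftP e (fun y => ψ y ^ j) (fun u => ∏ i, ψ (pol e u (σ i))) w t he1
    intro u y
    apply prod_congr rfl
    intro i _
    rw [pol_add, he2 (σ i) (mem_image_of_mem σ (mem_univ i)), mul_zero, add_zero]
  unfold av
  have h1 : (Fintype.card K : ℝ) * ∑ u : Fin d → K, ψ (pol e u t) ^ j * (∑ s ∈ T, ψ (pol e u s)) ^ r =
      (∑ y, ψ y ^ j) * ∑ u : Fin d → K, (∑ s ∈ T, ψ (pol e u s)) ^ r := by
    simp only [hexp, mul_sum]
    rw [sum_comm]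
    conv_rhs => rw [sum_comm]
    apply sum_congr rfl
    intro σ hσ
    have := key σ hσ
    simp only [mul_sum] at this
    exact this
  rw [div_mul_div_comm, ← h1]
  field_simp

end Pool.Agent.R318.DP
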