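import Pool.Agent.R318.DP.A
import Pool.Agent.R318.ST.Fin2
import Pool.Agent.R318.SU.Fin

/-! # The moments of the number of the points of a cyclic cover of affine space over a prime field -/

set_option autoImplicit false
set_option linter.unusedSectionVars false

namespace Pool.Agent.R318.DP

open Finset Filter Topology Pool.Agent.R318.ST Pool.Agent.R318.SU

/-- the normalised character sum -/
noncomputable def SP (ℓ : ℕ) {p : ℕ} [Fact p.Prime] {m d : ℕ} (e : Fin d → Fin m → ℕ) (u : Fin d → ZMod p) : ℝ :=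
  (∑ t : Fin m → ZMod p, psi ℓ (pol e u t)) / √((p : ℝ) ^ m)

/-- all monomials of degree at most `n` occur -/
def Full (n : ℕ) {m d : ℕ} (e : Fin d → Fin m → ℕ) : Prop := ∀ s : Fin m → ℕ, ∑ i, s i ≤ n → ∃ j, e j = s

lemma var_tau (ℓ : ℕ) (hℓ : ℓ.Prime) (i : ℕ) (hi : 1 ≤ i) (p : ℕ) [hpF : Fact p.Prime] :
    |G i * √(((p : ℝ) - 1) * ((rt ℓ (1 : ZMod p) : ℝ) - 1) / p) ^ i - tau ℓ i p| ≤ |G i| * (ℓ : ℝ) ^ i * i / p := by
  have hℓ1 : (1 : ℝ) ≤ ℓ := by exact_mod_cast hℓ.one_le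
  have hℓ0 : (0 : ℝ) ≤ (ℓ : ℝ) - 1 := by linarith
  have hp0 : (0 : ℝ) < p := by exact_mod_cast hpF.out.pos
  have hp1 : (1 : ℝ) ≤ p := by exact_mod_cast hpF.out.one_le
  unfold tau
  rw [if_neg (by omega : ¬ i = 0), rt_one ℓ hℓ]
  split_ifs with hd
  · have h1 : ((p : ℝ) - 1) * ((ℓ : ℝ) - 1) / p = ((ℓ : ℝ) - 1) * (1 - 1 / p) := by
      field_simp
    rw [h1, Real.sqrt_mul hℓ0, mul_pow, ← mul_assoc]
    have h2 : G i * √((ℓ : ℝ) - 1) ^ i * √(1 - 1 / (p : ℝ)) ^ i - G i * √((ℓ : ℝ) - 1) ^ i =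
        -(G i * √((ℓ : ℝ) - 1) ^ i * (1 - √(1 - 1 / (p : ℝ)) ^ i)) := by ring
    have h3 : (1 : ℝ) / p ≤ 1 := by
      rw [div_le_one hp0]
      exact hp1
    have h4 : 1 - 1 / (p : ℝ) ≤ √(1 - 1 / (p : ℝ)) := by
      apply Real.le_sqrt_of_sq_le
      have : 0 < (1 : ℝ) / p := by positivity
      nlinarith
    have h5 : √(1 - 1 / (p : ℝ)) ≤ 1 := by
      rw [Real.sqrt_le_left zero_le_one]
      have : 0 < (1 : ℝ) / p := by positivity
      linarith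
    have h6 : 1 - (i : ℝ) / p ≤ √(1 - 1 / (p : ℝ)) ^ i := by
      have h7 := one_add_mul_le_pow (a := -(1 / (p : ℝ))) (by linarith) i
      have h8 : (1 - 1 / (p : ℝ)) ^ i ≤ √(1 - 1 / (p : ℝ)) ^ i := pow_le_pow_left₀ (by linarith) h4 i
      have h9 : 1 + (i : ℝ) * -(1 / (p : ℝ)) = 1 - (i : ℝ) / p := by ring
      rw [h9, ← sub_eq_add_neg] at h7
      linarith
    have h7 : √(1 - 1 / (p : ℝ)) ^ i ≤ 1 := pow_le_one₀ (Real.sqrt_nonneg _) h5
    rw [h2, abs_neg, abs_mul, abs_mul, abs_of_nonneg (pow_nonneg (Real.sqrt_nonneg _) i),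
      abs_of_nonneg (by linarith : 0 ≤ 1 - √(1 - 1 / (p : ℝ)) ^ i), mul_div_assoc]
    apply mul_le_mul _ (by linarith) (by linarith) (by positivity)
    apply mul_le_mul_of_nonneg_left _ (abs_nonneg _)
    apply pow_le_pow_left₀ (Real.sqrt_nonneg _)
    rw [Real.sqrt_le_left (by linarith)]
    nlinarith
  · have h1 : ((p : ℝ) - 1) * (((1 : ℕ) : ℝ) - 1) / p = 0 := by
      push_cast
      ring
    rw [h1, Real.sqrt_zero, zero_pow (by omega), mul_zero, sub_zero, abs_zero]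
    positivity

lemma mom_P (ℓ : ℕ) (hℓ : ℓ.Prime) {n m d : ℕ} (hm : 1 ≤ m) (e : Fin d → Fin m → ℕ) (he : Full n e) (i : ℕ) (hi : i ≤ n + 1) :
    ∃ C : ℝ, 0 ≤ C ∧ ∀ (p : ℕ) [Fact p.Prime],
    |av (fun u : Fin d → ZMod p => SP ℓ e u ^ i) - tau ℓ i p| ≤ C / √(p : ℝ) := by
  classical
  have hℓ1 : (1 : ℝ) ≤ ℓ := by exact_mod_cast hℓ.one_le
  obtain ⟨C, hC, H⟩ := mom (ℓ : ℝ) hℓ1 i
  refine ⟨C * i + |G i| * (ℓ : ℝ) ^ i * i, by positivity, fun p hF => ?_⟩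
  have hp0 : (0 : ℝ) < p := by exact_mod_cast hF.out.pos
  have hp1 : (1 : ℝ) ≤ p := by exact_mod_cast hF.out.one_le
  have hs0 : 0 < √(p : ℝ) := Real.sqrt_pos.2 hp0
  rcases Nat.eq_zero_or_pos i with h0 | h0
  · subst h0
    unfold tau
    simp only [pow_zero, av_one]
    norm_num
  obtain ⟨s, hs⟩ : ∃ s, s = √((p : ℝ) ^ m) := ⟨_, rfl⟩
  have hss : √(p : ℝ) ≤ s := by
    rw [hs]
    apply Real.sqrt_le_sqrt
    calc (p : ℝ) = (p : ℝ) ^ 1 := (pow_one _).symm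
      _ ≤ (p : ℝ) ^ m := pow_le_pow_right₀ hp1 hm
  have hs1 : 0 < s := hs0.trans_le hss
  have hrt1 : (1 : ℝ) ≤ rt ℓ (1 : ZMod p) := by
    rw [rt_one ℓ hℓ]
    split_ifs
    · exact_mod_cast hℓ.one_le
    · norm_num
  have h := H i le_rfl (Fin d → ZMod p) (Fin m → ZMod p) (fun t u => psi ℓ (pol e u t)) (n + 1) _
    (kwiseP e he (psi ℓ : ZMod p → ℝ)) hi (by simp only [pow_one]; rw [psi_sum, zero_div])
    (by
      rw [psi_sq ℓ hℓ.pos, ZMod.card]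
      exact div_nonneg (mul_nonneg (by linarith) (by linarith)) hp0.le) (fun j => by
      rw [abs_div, ZMod.card, abs_of_pos hp0, div_le_iff₀ hp0]
      refine (abs_sum_le_sum_abs _ _).trans ?_
      refine (sum_le_card_nsmul _ _ ((ℓ : ℝ) ^ j) fun y _ => ?_).trans (le_of_eq ?_)
      · rw [abs_pow]
        exact pow_le_pow_left₀ (abs_nonneg _) (psi_abs ℓ hℓ.one_le y) j
      · rw [card_univ, ZMod.card, nsmul_eq_mul, mul_comm]) univ
  have hcard : ((univ : Finset (Fin m → ZMod p)).card : ℝ) = (p : ℝ) ^ m := by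
    rw [card_univ, Fintype.card_fun, ZMod.card, Fintype.card_fin]
    push_cast
    rfl
  rw [psi_sq ℓ hℓ.pos, hcard, ZMod.card, ← hs] at h
  obtain ⟨σ, hσ⟩ : ∃ σ, σ = √(((p : ℝ) - 1) * ((rt ℓ (1 : ZMod p) : ℝ) - 1) / p) := ⟨_, rfl⟩
  rw [← hσ] at h
  have e2 : (fun u : Fin d → ZMod p => SP ℓ e u ^ i) = fun u => (1 / s ^ i) * (∑ t : Fin m → ZMod p, psi ℓ (pol e u t)) ^ i := by
    funext u
    unfold SP
    rw [div_pow, hs]
    ring
  have e3 : 1 / s ^ i * av (fun u : Fin d → ZMod p => (∑ t : Fin m → ZMod p, psi ℓ (pol e u t)) ^ i) - G i * σ ^ i =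
      (av (fun u : Fin d → ZMod p => (∑ t : Fin m → ZMod p, psi ℓ (pol e u t)) ^ i) - G i * σ ^ i * s ^ i) / s ^ i := by
    field_simp
  have h4 : s ^ i = s ^ (i - 1) * s := by rw [← pow_succ, Nat.sub_add_cancel h0]
  have h5 : |av (fun u : Fin d → ZMod p => SP ℓ e u ^ i) - G i * σ ^ i| ≤ C * i / √(p : ℝ) := by
    rw [e2, av_mul, e3, abs_div, abs_of_pos (pow_pos hs1 i)]
    calc _ ≤ C * i * s ^ (i - 1) / s ^ i := div_le_div_of_nonneg_right h (by positivity)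
      _ = C * i / s := by
          rw [h4]
          field_simp
      _ ≤ C * i / √(p : ℝ) := div_le_div_of_nonneg_left (by positivity) hs0 hss
  have h6 := var_tau ℓ hℓ i h0 p
  rw [← hσ] at h6
  have h7 : |G i| * (ℓ : ℝ) ^ i * i / p ≤ |G i| * (ℓ : ℝ) ^ i * i / √(p : ℝ) := by
    apply div_le_div_of_nonneg_left (by positivity) hs0
    rw [Real.sqrt_le_left hp0.le]
    nlinarith
  have h8 := abs_sub_le (av (fun u : Fin d → ZMod p => SP ℓ e u ^ i)) (G i * σ ^ i) (tau ℓ i p)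
  rw [add_div]
  linarith

lemma lim_P (ℓ : ℕ) (hℓ : ℓ.Prime) {n m d : ℕ} (hm : 1 ≤ m) (e : Fin d → Fin m → ℕ) (he : Full n e) (i : ℕ) (hi : i ≤ n + 1)
    (ε : ℝ) (hε : 0 < ε) :
    ∃ p₀ : ℕ, ∀ (p : ℕ) [Fact p.Prime], p₀ ≤ p → |av (fun u : Fin d → ZMod p => SP ℓ e u ^ i) - tau ℓ i p| ≤ ε := by
  obtain ⟨C, hC, h1⟩ := mom_P ℓ hℓ hm e he i hi
  obtain ⟨p₀, hp₀⟩ := exists_nat_ge ((C / ε) ^ 2)
  refine ⟨p₀, fun p hF hp => (h1 p).trans ?_⟩
  have hp0 : (0 : ℝ) < p := by exact_mod_cast hF.out.pos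
  have hs0 : 0 < √(p : ℝ) := Real.sqrt_pos.2 hp0
  rw [div_le_iff₀ hs0]
  have h2 : C / ε ≤ √(p : ℝ) := by
    apply Real.le_sqrt_of_sq_le
    exact hp₀.trans (by exact_mod_cast hp)
  rw [div_le_iff₀ hε] at h2
  linarith

open Classical in
/-- the truncated moments -/
theorem clip (ℓ : ℕ) (hℓ : ℓ.Prime) {n m d : ℕ} (hm : 1 ≤ m) (e : Fin d → Fin m → ℕ) (he : Full n e) (δ : ℝ) (hδ : 0 < δ) :
    ∃ B : ℝ, 1 ≤ B ∧ ∃ p₀ : ℕ, ∀ (p : ℕ) [Fact p.Prime], p₀ ≤ p → ∀ i : ℕ, i < 2 * ((n + 1) / 2) →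
    |av (fun u : Fin d → ZMod p => if |SP ℓ e u| ≤ B then SP ℓ e u ^ i else 0) - tau ℓ i p| ≤ δ := by
  obtain ⟨h, hh⟩ : ∃ h, h = (n + 1) / 2 := ⟨_, rfl⟩
  obtain ⟨R, hR⟩ : ∃ R, R = 2 * h := ⟨_, rfl⟩
  have hRn : R ≤ n + 1 := by omega
  have hR2 : 2 * ((n + 1) / 2) = R := by omega
  rw [hR2]
  obtain ⟨T, hT⟩ : ∃ T : ℝ, T = 1 + |G R * √((ℓ : ℝ) - 1) ^ R| := ⟨_, rfl⟩
  have hT0 : 0 < T := by rw [hT]; positivity
  have htau : ∀ p : ℕ, tau ℓ R p ≤ T := by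
    intro p
    unfold tau
    rw [hT]
    split_ifs
    · linarith [abs_nonneg (G R * √((ℓ : ℝ) - 1) ^ R)]
    · linarith [le_abs_self (G R * √((ℓ : ℝ) - 1) ^ R)]
    · positivity
  obtain ⟨B, hB⟩ : ∃ B : ℝ, B = 2 * (T + 1) / δ + 1 := ⟨_, rfl⟩
  have hB1 : 1 ≤ B := by
    rw [hB]
    have : 0 ≤ 2 * (T + 1) / δ := by positivity
    linarith
  have hBδ : (T + 1) / B ≤ δ / 2 := by
    rw [div_le_iff₀ (by linarith)]
    have : 2 * (T + 1) / δ ≤ B := by linarith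
    rw [div_le_iff₀ hδ] at this
    linarith
  have hex : ∀ i : ℕ, ∃ p₀ : ℕ, i ≤ R → ∀ (p : ℕ) [Fact p.Prime], p₀ ≤ p →
      |av (fun u : Fin d → ZMod p => SP ℓ e u ^ i) - tau ℓ i p| ≤ min (δ / 2) 1 := by
    intro i
    by_cases hi : i ≤ R
    · obtain ⟨p₀, hp₀⟩ := lim_P ℓ hℓ hm e he i (hi.trans hRn) (min (δ / 2) 1) (lt_min (by linarith) one_pos)
      exact ⟨p₀, fun _ => hp₀⟩
    · exact ⟨0, fun h => absurd h hi⟩
  choose q hq using hex
  refine ⟨B, hB1, ∑ i ∈ range (R + 1), q i, fun p hF hp i hi => ?_⟩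
  have hqle : ∀ j, j ≤ R → q j ≤ p := by
    intro j hj
    exact (single_le_sum (f := q) (fun _ _ => Nat.zero_le _) (mem_range.2 (by omega))).trans hp
  have h1 := (hq i hi.le p (hqle i hi.le)).trans (min_le_left _ _)
  have h2 := (hq R le_rfl p (hqle R le_rfl)).trans (min_le_right _ _)
  have hpt : ∀ u : Fin d → ZMod p, |SP ℓ e u ^ i - (if |SP ℓ e u| ≤ B then SP ℓ e u ^ i else 0)| ≤ (1 / B) * SP ℓ e u ^ R := by
    intro u
    obtain ⟨x, hx⟩ : ∃ x, x = SP ℓ e u := ⟨_, rfl⟩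
    rw [← hx]
    have hxR : x ^ R = |x| ^ R := by
      rw [hR]
      exact ((even_two_mul h).pow_abs x).symm
    split_ifs with hc
    · rw [sub_self, abs_zero, hxR]
      positivity
    · push Not at hc
      rw [sub_zero, abs_pow, hxR]
      have e1 : |x| ^ R = |x| ^ i * |x| ^ (R - i) := by rw [← pow_add, Nat.add_sub_cancel' hi.le]
      have e2 : B ≤ |x| ^ (R - i) := by
        have h3 : 1 ≤ |x| := hB1.trans hc.le
        calc B ≤ |x| := hc.le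
          _ = |x| ^ 1 := (pow_one _).symm
          _ ≤ |x| ^ (R - i) := pow_le_pow_right₀ h3 (by omega)
      have hB0 : 0 < B := by linarith
      rw [e1, div_mul_eq_mul_div, one_mul, le_div_iff₀ hB0]
      exact mul_le_mul_of_nonneg_left e2 (pow_nonneg (abs_nonneg _) _)
  have habs : ∀ f : (Fin d → ZMod p) → ℝ, |av f| ≤ av (fun u => |f u|) := by
    intro f
    unfold av
    rw [abs_div, abs_of_nonneg (Nat.cast_nonneg _ : (0 : ℝ) ≤ (Fintype.card (Fin d → ZMod p) : ℝ))]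
    exact div_le_div_of_nonneg_right (abs_sum_le_sum_abs _ _) (Nat.cast_nonneg _)
  have h3 : |av (fun u : Fin d → ZMod p => SP ℓ e u ^ i) - av (fun u : Fin d → ZMod p => if |SP ℓ e u| ≤ B then SP ℓ e u ^ i else 0)| ≤ δ / 2 := by
    rw [← av_sub]
    refine (habs _).trans ((av_mono _ _ hpt).trans ?_)
    rw [av_mul]
    have h4 : av (fun u : Fin d → ZMod p => SP ℓ e u ^ R) ≤ T + 1 := by
      have := (abs_le.1 h2).2
      have := htau p
      linarith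
    refine le_trans ?_ hBδ
    rw [one_div, inv_mul_eq_div]
    exact div_le_div_of_nonneg_right h4 (by linarith)
  have h5 := abs_le.1 h1
  have h6 := abs_le.1 h3
  rw [abs_le]
  constructor <;> linarith

end Pool.Agent.R318.DP
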