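import Pool.Agent.R318.DP.B

/-! # Cyclic covers of affine space with random coefficients: the final theorem -/

set_option autoImplicit false
set_option linter.unusedSectionVars false

namespace Pool.Agent.R318.DP

open Finset Filter Topology Pool.Agent.R318.PR Pool.Agent.R459.Eq Pool.Agent.H730R2.AA Pool.Agent.R318.ST Pool.Agent.R318.SU

/-- one bounded function whose mean values are close to numbers with a known average -/
theorem gen_tau (b : ℕ) (hb : 2 ≤ b) (η : ℝ) (hη : 0 < η) (hη1 : η ≤ 1) : ∃ W : ℕ, 1 ≤ W ∧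
    ∀ (d : ℕ) (κ : Fin d → ℤ), (∀ j, κ j ≠ 0) → ∀ (Y : ℕ → (Fin d → ℤ) → ℝ) (B : ℝ), 0 < B →
    (∀ p v, |Y p v| ≤ B) → ∀ (Yg : (p : ℕ) → [Fact p.Prime] → (Fin d → ZMod p) → ℝ),
    (∀ (p : ℕ) [Fact p.Prime], ∀ v : Fin d → ℤ, Y p v = Yg p (fun j => ((v j : ℤ) : ZMod p))) →
    ∀ (τ : ℕ → ℝ) (c δ D : ℝ), 0 ≤ δ → 0 ≤ D → (∀ p, |τ p| ≤ D) →
    (∃ p₀ : ℕ, ∀ (p : ℕ) [Fact p.Prime], p₀ ≤ p → |av (Yg p) - τ p| ≤ δ) →
    (∀ ε : ℝ, 0 < ε → ∃ X : ℕ, ∀ x : ℕ, X ≤ x →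
      |∑ p ∈ (range (x + 1)).filter Nat.Prime, τ p - c * Nat.primeCounting x| ≤ ε * Nat.primeCounting x) → ∀ ε : ℝ, 0 < ε →
    ∃ (C : ℝ) (X₀ : ℕ), 0 < C ∧ 2 ≤ X₀ ∧ ∀ k X : ℕ, X₀ ≤ X → ∀ (c₀ : Fin d → ℤ) (u : Fin d → ℕ → ℕ → ℝ),
    (∀ j, Dist b k η (u j)) →
    PrV b k u (fun g => ∃ x : ℕ, X ≤ x ∧ x ^ W ≤ b ^ k ∧ (ε + δ) * (Nat.primeCounting x : ℝ) <
      |∑ p ∈ (range (x + 1)).filter Nat.Prime, Y p (fun j => c₀ j + κ j * (dval b (g j) : ℕ)) -
        c * (Nat.primeCounting x : ℝ)|) ≤ C * (Real.log X / X) := by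
  classical
  obtain ⟨W, hW, H⟩ := gen_one b hb η hη hη1
  refine ⟨W, hW, fun d κ hκ Y B hB0 hYB Yg hY τ c δ D hδ hD hτD hlim hτ ε hε => ?_⟩
  have hYgB : ∀ (p : ℕ) [Fact p.Prime] (w : Fin d → ZMod p), |Yg p w| ≤ B := by
    intro p hF w
    have h1 := hY p (fun j => ((w j).val : ℤ))
    have h2 : (fun j => ((((w j).val : ℕ) : ℤ) : ZMod p)) = w := by
      funext j
      rw [Int.cast_natCast, ZMod.natCast_zmod_val]
    rw [h2] at h1
    rw [← h1]
    exact hYB p _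
  have havB : ∀ (p : ℕ) [Fact p.Prime], |av (Yg p)| ≤ B := by
    intro p hF
    have h0 : (0 : ℝ) < (Fintype.card (Fin d → ZMod p) : ℝ) := by exact_mod_cast Fintype.card_pos
    unfold av
    rw [abs_div, abs_of_pos h0, div_le_iff₀ h0]
    refine (abs_sum_le_sum_abs _ _).trans ((sum_le_card_nsmul _ _ B fun w _ => hYgB p w).trans ?_)
    rw [card_univ, nsmul_eq_mul, mul_comm]
  obtain ⟨s, hs⟩ : ∃ s : ℕ → ℝ, s = fun p => if h : p.Prime then (haveI : Fact p.Prime := ⟨h⟩; av (Yg p)) else 0 := ⟨_, rfl⟩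
  have hsp : ∀ (p : ℕ) [hF : Fact p.Prime], s p = av (Yg p) := by
    intro p hF
    rw [hs]
    simp only
    rw [dif_pos hF.out]
  have hsB : ∀ p, |s p| ≤ B := by
    intro p
    by_cases h : p.Prime
    · have hF : Fact p.Prime := ⟨h⟩
      rw [hsp p]
      exact havB p
    · rw [hs]
      simp only
      rw [dif_neg h, abs_zero]
      exact hB0.le
  obtain ⟨C, X₀, hC, hX₀, h1⟩ := H d κ hκ 1 one_ne_zero (fun p v => Y p v - s p) (2 * B) (by linarith) (by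
    intro p v
    refine (abs_sub _ _).trans ?_
    linarith [hYB p v, hsB p]) (fun p _ w => Yg p w - s p) (by
    intro p hF _ v
    rw [hY p v]) 0 (by
    intro ε' hε'
    refine ⟨0, fun p hF _ => ?_⟩
    rw [av_sub, hsp p]
    have : av (fun _ : Fin d → ZMod p => av (Yg p)) = av (Yg p) := by
      have h2 := av_mul (V := Fin d → ZMod p) (av (Yg p)) (fun _ => 1)
      rw [av_one, mul_one] at h2
      exact h2
    rw [this, sub_self, sub_zero, abs_zero]
    exact hε'.le) (ε / 2) (by linarith)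
  obtain ⟨p₀, hp₀⟩ := hlim
  obtain ⟨X1, hX1⟩ := hτ (ε / 4) (by linarith)
  obtain ⟨X2, hX24, hX2⟩ := small_ev ((B + D) * p₀) (ε / 4) (by linarith)
  refine ⟨C, X₀ + X1 + X2, hC, by omega, fun k X hX c₀ u hu => ?_⟩
  refine le_trans ?_ (h1 k X (by omega) c₀ u hu)
  have hw : ∀ g : Fin d → Fin k → ℕ, 0 ≤ ∏ j, wt (u j) (g j) := fun g => prod_nonneg fun j _ => wt_nonneg (hu j) _
  have hU := PrV_unionA b k u hw ({()} : Finset Unit)
    (fun g => ∃ x : ℕ, X ≤ x ∧ x ^ W ≤ b ^ k ∧ (ε + δ) * (Nat.primeCounting x : ℝ) <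
      |∑ p ∈ (range (x + 1)).filter Nat.Prime, Y p (fun j => c₀ j + κ j * (dval b (g j) : ℕ)) -
        c * (Nat.primeCounting x : ℝ)|)
    (fun _ g => ∃ x : ℕ, X ≤ x ∧ x ^ W ≤ b ^ k ∧ (ε / 2) * (Nat.primeCounting x : ℝ) <
      |∑ p ∈ (range (x + 1)).filter Nat.Prime, (Y p (fun j => c₀ j + κ j * (dval b (g j) : ℕ)) - s p) -
        0 * (Nat.primeCounting x : ℝ)|) ?_
  · rw [sum_singleton] at hU
    exact hU
  rintro g ⟨x, hx, hxW, hbig⟩
  refine ⟨(), mem_singleton_self _, x, hx, hxW, ?_⟩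
  have hl : 0 ≤ Real.log x := Real.log_nonneg (by exact_mod_cast (by omega : 1 ≤ x))
  have k1 := hX1 x (by omega)
  have k2 := hX2 x (by omega)
  have hpi : 0 ≤ (Nat.primeCounting x : ℝ) := Nat.cast_nonneg _
  have k3 : |∑ p ∈ (range (x + 1)).filter Nat.Prime, s p - ∑ p ∈ (range (x + 1)).filter Nat.Prime, τ p| ≤
      (B + D) * p₀ + δ * Nat.primeCounting x := by
    rw [← sum_sub_distrib]
    refine (abs_sum_le_sum_abs _ _).trans ?_
    rw [← sum_filter_add_sum_filter_not ((range (x + 1)).filter Nat.Prime) (fun p => p < p₀)]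
    apply add_le_add
    · refine (sum_le_card_nsmul _ _ (B + D) fun p hp => ?_).trans ?_
      · exact (abs_sub _ _).trans (add_le_add (hsB p) (hτD p))
      · rw [nsmul_eq_mul, mul_comm]
        apply mul_le_mul_of_nonneg_left _ (by linarith)
        have : (((range (x + 1)).filter Nat.Prime).filter (fun p => p < p₀)).card ≤ p₀ := by
          calc _ ≤ (range p₀).card := by
                apply card_le_card
                intro p hp
                rw [mem_filter] at hp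
                exact mem_range.2 hp.2
            _ = p₀ := card_range _
        exact_mod_cast this
    · refine (sum_le_card_nsmul _ _ δ fun p hp => ?_).trans ?_
      · rw [mem_filter, mem_filter] at hp
        have hF : Fact p.Prime := ⟨hp.1.2⟩
        rw [hsp p]
        exact hp₀ p (by omega)
      · rw [nsmul_eq_mul, mul_comm]
        apply mul_le_mul_of_nonneg_left _ hδ
        have h5 : (((range (x + 1)).filter Nat.Prime).filter (fun p => ¬ p < p₀)).card ≤ Nat.primeCounting x := by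
          refine (card_filter_le _ _).trans (le_of_eq ?_)
          rw [Nat.primeCounting, Nat.primeCounting', Nat.count_eq_card_filter_range]
        exact_mod_cast h5
  have k4 : ∑ p ∈ (range (x + 1)).filter Nat.Prime, Y p (fun j => c₀ j + κ j * (dval b (g j) : ℕ)) - c * (Nat.primeCounting x : ℝ) =
      (∑ p ∈ (range (x + 1)).filter Nat.Prime, (Y p (fun j => c₀ j + κ j * (dval b (g j) : ℕ)) - s p) - 0 * (Nat.primeCounting x : ℝ)) +
      ((∑ p ∈ (range (x + 1)).filter Nat.Prime, s p - ∑ p ∈ (range (x + 1)).filter Nat.Prime, τ p) +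
      (∑ p ∈ (range (x + 1)).filter Nat.Prime, τ p - c * (Nat.primeCounting x : ℝ))) := by
    rw [sum_sub_distrib]
    ring
  rw [k4] at hbig
  have k5 := abs_add_le (∑ p ∈ (range (x + 1)).filter Nat.Prime, (Y p (fun j => c₀ j + κ j * (dval b (g j) : ℕ)) - s p) - 0 * (Nat.primeCounting x : ℝ))
    ((∑ p ∈ (range (x + 1)).filter Nat.Prime, s p - ∑ p ∈ (range (x + 1)).filter Nat.Prime, τ p) +
      (∑ p ∈ (range (x + 1)).filter Nat.Prime, τ p - c * (Nat.primeCounting x : ℝ)))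
  have k6 := abs_add_le (∑ p ∈ (range (x + 1)).filter Nat.Prime, s p - ∑ p ∈ (range (x + 1)).filter Nat.Prime, τ p)
    (∑ p ∈ (range (x + 1)).filter Nat.Prime, τ p - c * (Nat.primeCounting x : ℝ))
  have k7 : (ε + δ) * (Nat.primeCounting x : ℝ) = ε / 2 * Nat.primeCounting x + (ε / 4 * Nat.primeCounting x + δ * Nat.primeCounting x +
    ε / 4 * Nat.primeCounting x) := by ring
  rw [k7] at hbig
  linarith

/-- the number of the points of `w ^ ℓ = f(x₁, …, x_m)` modulo `p`, where `f` has the exponents `e` and the coefficients `a` -/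
noncomputable def pts (ℓ : ℕ) {m d : ℕ} (e : Fin d → Fin m → ℕ) (a : Fin d → ℤ) (p : ℕ) : ℕ :=
  Nat.card {z : (Fin m → ZMod p) × ZMod p // z.2 ^ ℓ = ∑ j, ((a j : ℤ) : ZMod p) * ∏ i, z.1 i ^ e j i}

/-- the number `(pts - p ^ m) / p ^ (m / 2)` -/
noncomputable def aN (ℓ : ℕ) {m d : ℕ} (e : Fin d → Fin m → ℕ) (a : Fin d → ℤ) (p : ℕ) : ℝ :=
  ((pts ℓ e a p : ℝ) - (p : ℝ) ^ m) / √((p : ℝ) ^ m)

lemma aN_eq (ℓ : ℕ) {m d : ℕ} (e : Fin d → Fin m → ℕ) (a : Fin d → ℤ) (p : ℕ) [Fact p.Prime] :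
    aN ℓ e a p = SP ℓ e (fun j => ((a j : ℤ) : ZMod p)) := by
  classical
  unfold aN SP
  congr 1
  have h2 : pts ℓ e a p = ∑ t : Fin m → ZMod p, rt ℓ (pol e (fun j => ((a j : ℤ) : ZMod p)) t) := by
    unfold pts rt pol
    rw [Nat.card_eq_fintype_card, Fintype.card_subtype, card_filter, Fintype.sum_prod_type]
    apply sum_congr rfl
    intro x _
    rw [card_filter]
  rw [h2]
  unfold psi
  rw [sum_sub_distrib, sum_const, card_univ, Fintype.card_fun, ZMod.card, Fintype.card_fin, nsmul_eq_mul, mul_one]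
  push_cast
  rfl

open Classical in
/-- the primes `p ≤ x` with `|aN| ≤ B` -/
noncomputable def okS (ℓ : ℕ) {m d : ℕ} (e : Fin d → Fin m → ℕ) (B : ℝ) (a : Fin d → ℤ) (x : ℕ) : Finset ℕ :=
  (range (x + 1)).filter (fun p => p.Prime ∧ |aN ℓ e a p| ≤ B)

/-- at every `x ≥ X` with `x ^ W ≤ N`: almost all primes have `|aN| ≤ B`, and the averages of `aN ^ i` over them are close to
`cM ℓ i` -/
def CloseM (ℓ n : ℕ) {m d : ℕ} (e : Fin d → Fin m → ℕ) (ε B : ℝ) (X W N : ℕ) (a : Fin d → ℤ) : Prop :=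
  ∀ x : ℕ, X ≤ x → x ^ W ≤ N → (1 - ε) * (Nat.primeCounting x : ℝ) ≤ (okS ℓ e B a x).card ∧
    ∀ i : ℕ, 1 ≤ i → i < 2 * ((n + 1) / 2) →
      |∑ p ∈ okS ℓ e B a x, aN ℓ e a p ^ i - cM ℓ i * (okS ℓ e B a x).card| ≤ ε * (okS ℓ e B a x).card

theorem main (b : ℕ) (hb : 2 ≤ b) (η : ℝ) (hη : 0 < η) : ∃ W : ℕ, 1 ≤ W ∧
    ∀ ℓ m n : ℕ, ℓ.Prime → 1 ≤ m → 1 ≤ n → ∀ (d : ℕ) (e : Fin d → Fin m → ℕ), Full n e →
    ∀ κ : Fin d → ℤ, (∀ j, κ j ≠ 0) → ∀ ε : ℝ, 0 < ε →
    ∃ (B C : ℝ) (X₀ : ℕ), ∀ k X : ℕ, X₀ ≤ X → ∀ (c : Fin d → ℤ) (u : Fin d → ℕ → ℕ → ℝ),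
    (∀ j, Dist b k η (u j)) →
    PrV b k u (fun g => ¬ CloseM ℓ n e ε B X W (b ^ k) (fun j => c j + κ j * (dval b (g j) : ℕ))) ≤ C * (Real.log X / X) := by
  classical
  obtain ⟨W, hW, H⟩ := gen_tau b hb (min η 1) (lt_min hη one_pos) (min_le_right _ _)
  refine ⟨W, hW, fun ℓ m n hℓ hm hn d e he κ hκ ε hε => ?_⟩
  obtain ⟨R, hR⟩ : ∃ R, R = 2 * ((n + 1) / 2) := ⟨_, rfl⟩
  have hR2 : 2 ≤ R := by omega
  obtain ⟨cc, hcc⟩ : ∃ cc : ℕ → ℝ, cc = fun i => if i = 0 then 1 else cM ℓ i := ⟨_, rfl⟩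
  obtain ⟨A, hA⟩ : ∃ A : ℝ, A = ∑ i ∈ range R, |cc i| := ⟨_, rfl⟩
  have hA0 : 0 ≤ A := by rw [hA]; exact sum_nonneg fun _ _ => abs_nonneg _
  have hAs : ∀ i, i < R → |cc i| ≤ A := by
    intro i hi
    rw [hA]
    exact single_le_sum (f := fun i => |cc i|) (fun _ _ => abs_nonneg _) (mem_range.2 hi)
  obtain ⟨ε₀, hε₀⟩ : ∃ ε₀ : ℝ, ε₀ = min (1 / 2) (min ε (ε / (4 * (A + 1)))) := ⟨_, rfl⟩
  have h0 : 0 < ε₀ := by rw [hε₀]; exact lt_min (by norm_num) (lt_min hε (by positivity))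
  have h01 : ε₀ ≤ 1 / 2 := by rw [hε₀]; exact min_le_left _ _
  have h02 : ε₀ ≤ ε := by rw [hε₀]; exact (min_le_right _ _).trans (min_le_left _ _)
  have h03 : ε₀ ≤ ε / (4 * (A + 1)) := by rw [hε₀]; exact (min_le_right _ _).trans (min_le_right _ _)
  have h04 : (A + 1) * ε₀ ≤ ε / 4 := by
    rw [le_div_iff₀ (by positivity)] at h03
    linarith
  obtain ⟨B, hB1, p₀, hclip⟩ := clip ℓ hℓ hm e he (ε₀ / 2) (by linarith)
  rw [← hR] at hclip
  have hB0 : 0 < B := by linarith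
  obtain ⟨D, hD1, hDτ⟩ := tau_bound ℓ n
  rw [← hR] at hDτ
  obtain ⟨Y, hYd⟩ : ∃ Y : ℕ → ℕ → (Fin d → ℤ) → ℝ, Y = fun i p v => if p.Prime ∧ |aN ℓ e v p| ≤ B then aN ℓ e v p ^ i else 0 := ⟨_, rfl⟩
  have hπ : ∀ x : ℕ, ((range (x + 1)).filter Nat.Prime).card = Nat.primeCounting x := by
    intro x
    rw [Nat.primeCounting, Nat.primeCounting', Nat.count_eq_card_filter_range]
  have hex : ∀ i : ℕ, ∃ (C : ℝ) (X₀ : ℕ), 0 < C ∧ (i < R → ∀ k X : ℕ, X₀ ≤ X → ∀ (c₀ : Fin d → ℤ)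
      (u : Fin d → ℕ → ℕ → ℝ), (∀ j, Dist b k (min η 1) (u j)) →
      PrV b k u (fun g => ∃ x : ℕ, X ≤ x ∧ x ^ W ≤ b ^ k ∧ ε₀ * (Nat.primeCounting x : ℝ) <
      |∑ p ∈ (range (x + 1)).filter Nat.Prime, Y i p (fun j => c₀ j + κ j * (dval b (g j) : ℕ)) -
        cc i * (Nat.primeCounting x : ℝ)|) ≤ C * (Real.log X / X)) := by
    intro i
    by_cases hi : i < R
    · obtain ⟨C, X₀, hC, _, h1⟩ := H d κ hκ (Y i) (B ^ i) (pow_pos hB0 i) (by
        intro p v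
        rw [hYd]
        simp only
        split_ifs with h
        · rw [abs_pow]
          exact pow_le_pow_left₀ (abs_nonneg _) h.2 i
        · rw [abs_zero]
          positivity) (fun p _ w => if |SP ℓ e w| ≤ B then SP ℓ e w ^ i else 0) (by
        intro p hF v
        rw [hYd]
        simp only
        rw [aN_eq]
        by_cases h : |SP ℓ e (fun j => ((v j : ℤ) : ZMod p))| ≤ B
        · rw [if_pos ⟨hF.out, h⟩, if_pos h]
        · rw [if_neg (fun h' => h h'.2), if_neg h]) (fun p => tau ℓ i p) (cc i) (ε₀ / 2) D (by linarith) (by linarith)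
        (fun p => hDτ i p hi) ⟨p₀, fun p hF hp => hclip p hp i hi⟩ (by
        intro ε' hε'
        have hGP : ∀ x : ℕ, GP 1 x = (range (x + 1)).filter Nat.Prime := by
          intro x
          ext p
          rw [mem_GP, mem_filter, mem_range]
          constructor
          · exact fun h => ⟨by omega, h.2.1⟩
          · exact fun h => ⟨by omega, h.2, fun h' => h.2.one_lt.ne' (Nat.dvd_one.1 h')⟩
        rw [hcc]
        simp only
        by_cases hi0 : i = 0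
        · subst hi0
          refine ⟨0, fun x _ => ?_⟩
          unfold tau
          rw [if_pos rfl, sum_congr rfl (fun p _ => if_pos rfl), sum_const, hπ, nsmul_eq_mul, mul_one, one_mul, sub_self, abs_zero]
          positivity
        · obtain ⟨X1, hX1⟩ := avg_class ℓ hℓ 1 one_ne_zero (G i * √((ℓ : ℝ) - 1) ^ i) ε' hε'
          refine ⟨X1, fun x hx => ?_⟩
          have h2 := hX1 x hx
          rw [hGP] at h2
          unfold tau cM
          rw [if_neg hi0]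
          simp only [if_neg hi0]
          exact h2) (ε₀ / 2) (by linarith)
      rw [add_halves] at h1
      exact ⟨C, X₀, hC, fun _ => h1⟩
    · exact ⟨1, 0, one_pos, fun h => absurd h hi⟩
  choose C X₀ hC hH using hex
  refine ⟨B, ∑ i ∈ range R, C i, ∑ i ∈ range R, X₀ i + 4, fun k X hX c₀ u hu => ?_⟩
  obtain ⟨a, ha⟩ : ∃ a : (Fin d → Fin k → ℕ) → Fin d → ℤ, a = fun g j => c₀ j + κ j * (dval b (g j) : ℕ) := ⟨_, rfl⟩
  have hw : ∀ g : Fin d → Fin k → ℕ, 0 ≤ ∏ j, wt (u j) (g j) := fun g => prod_nonneg fun j _ => wt_nonneg (hu j) _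
  have hone : ∀ i ∈ range R, PrV b k u (fun g => ∃ x : ℕ, X ≤ x ∧ x ^ W ≤ b ^ k ∧ ε₀ * (Nat.primeCounting x : ℝ) <
      |∑ p ∈ (range (x + 1)).filter Nat.Prime, Y i p (a g) - cc i * (Nat.primeCounting x : ℝ)|) ≤
        C i * (Real.log X / X) := by
    intro i hi
    rw [ha]
    apply hH i (mem_range.1 hi) k X _ c₀ u fun j => (hu j).min _ (min_le_left _ _)
    have : X₀ i ≤ ∑ i ∈ range R, X₀ i := single_le_sum (fun _ _ => Nat.zero_le _) hi
    omega
  have hsum : ∀ (i : ℕ) (v : Fin d → ℤ) (x : ℕ), ∑ p ∈ (range (x + 1)).filter Nat.Prime, Y i p v =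
      ∑ p ∈ okS ℓ e B v x, aN ℓ e v p ^ i := by
    intro i v x
    rw [hYd]
    unfold okS
    simp only
    rw [← sum_filter, filter_filter]
    apply sum_congr _ fun _ _ => rfl
    apply filter_congr
    intro p _
    exact ⟨fun h => h.2, fun h => ⟨h.1, h⟩⟩
  have hcard : ∀ (v : Fin d → ℤ) (x : ℕ), ∑ p ∈ (range (x + 1)).filter Nat.Prime, Y 0 p v = (okS ℓ e B v x).card := by
    intro v x
    rw [hsum]
    simp only [pow_zero]
    rw [sum_const, nsmul_eq_mul, mul_one]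
  have hcover : ∀ g, ¬ CloseM ℓ n e ε B X W (b ^ k) (a g) → ∃ i ∈ range R, ∃ x : ℕ, X ≤ x ∧ x ^ W ≤ b ^ k ∧
      ε₀ * (Nat.primeCounting x : ℝ) < |∑ p ∈ (range (x + 1)).filter Nat.Prime, Y i p (a g) -
        cc i * (Nat.primeCounting x : ℝ)| := by
    intro g hgc
    by_contra hcon
    push Not at hcon
    apply hgc
    intro x hx hxW
    have hpi : 0 < (Nat.primeCounting x : ℝ) := (pi_lower' x (by omega)).1
    have h1 := hcon 0 (mem_range.2 (by omega)) x hx hxW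
    rw [hcard] at h1
    have hcn : cc 0 = 1 := by rw [hcc]; simp
    rw [hcn, one_mul] at h1
    have h2 := (abs_le.1 h1).1
    have h3 := (abs_le.1 h1).2
    have h5 : (1 - ε₀) * (Nat.primeCounting x : ℝ) ≤ (okS ℓ e B (a g) x).card := by linarith
    constructor
    · refine le_trans ?_ h5
      apply mul_le_mul_of_nonneg_right _ hpi.le
      linarith
    intro i hi1 hi
    rw [← hR] at hi
    have h6 := hcon i (mem_range.2 hi) x hx hxW
    rw [hsum] at h6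
    have hcs : cc i = cM ℓ i := by rw [hcc]; simp only; rw [if_neg (by omega)]
    have h7 : |cc i * (Nat.primeCounting x : ℝ) - cc i * ((okS ℓ e B (a g) x).card : ℝ)| ≤ A * (ε₀ * Nat.primeCounting x) := by
      rw [← mul_sub, abs_mul, abs_sub_comm]
      exact mul_le_mul (hAs i hi) h1 (abs_nonneg _) hA0
    have h8 := abs_sub_le (∑ p ∈ okS ℓ e B (a g) x, aN ℓ e (a g) p ^ i) (cc i * (Nat.primeCounting x : ℝ))
      (cc i * ((okS ℓ e B (a g) x).card : ℝ))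
    have h9 : (A + 1) * ε₀ * (Nat.primeCounting x : ℝ) ≤ ε / 4 * Nat.primeCounting x :=
      mul_le_mul_of_nonneg_right h04 hpi.le
    have h10 : (1 / 2) * (Nat.primeCounting x : ℝ) ≤ (okS ℓ e B (a g) x).card := by
      refine le_trans ?_ h5
      apply mul_le_mul_of_nonneg_right _ hpi.le
      linarith
    have h11 : ε / 2 * (Nat.primeCounting x : ℝ) ≤ ε * (okS ℓ e B (a g) x).card := by
      have := mul_le_mul_of_nonneg_left h10 hε.le
      linarith
    have h12 : 0 ≤ ε * (Nat.primeCounting x : ℝ) := by positivity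
    have h13 : (A + 1) * ε₀ * (Nat.primeCounting x : ℝ) = ε₀ * Nat.primeCounting x + A * (ε₀ * Nat.primeCounting x) := by ring
    rw [← hcs]
    linarith
  calc PrV b k u (fun g => ¬ CloseM ℓ n e ε B X W (b ^ k) (fun j => c₀ j + κ j * (dval b (g j) : ℕ))) =
        PrV b k u (fun g => ¬ CloseM ℓ n e ε B X W (b ^ k) (a g)) := by rw [ha]
    _ ≤ ∑ i ∈ range R, PrV b k u (fun g => ∃ x : ℕ, X ≤ x ∧ x ^ W ≤ b ^ k ∧ ε₀ * (Nat.primeCounting x : ℝ) <
      |∑ p ∈ (range (x + 1)).filter Nat.Prime, Y i p (a g) - cc i * (Nat.primeCounting x : ℝ)|) := by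
          apply PrV_unionA b k u hw (range R)
          exact hcover
    _ ≤ ∑ i ∈ range R, C i * (Real.log X / X) := sum_le_sum hone
    _ = _ := by rw [sum_mul]

end Pool.Agent.R318.DP
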